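import Pool.Agent.Helper92.PV.St

/-!
# Project PV (MP_ad0dc2_nt), module EXP

The monomials on a patch as polynomials in the two small quantities, with bounded coefficients.
Coefficients live in the ring of functions which are bounded on the admissible set.
-/

set_option autoImplicit false

open Finset

noncomputable section

namespace Pool.Agent.Helper10.PV

open Pool.Agent.Helper92.PV

/-- admissible base points -/
private def SS : Set ℝ := {x | |x| ≤ 1 ∧ 1 / 4 ≤ 1 + x ^ 3}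

/-- functions bounded on the admissible set -/
private def RB : Subring (ℝ → ℝ) where
  carrier := {g | ∃ K : ℝ, ∀ x ∈ SS, |g x| ≤ K}
  mul_mem' := by
    rintro f g ⟨K, hK⟩ ⟨K', hK'⟩
    refine ⟨K * K', fun x hx => ?_⟩
    rw [Pi.mul_apply, abs_mul]
    exact mul_le_mul (hK x hx) (hK' x hx) (abs_nonneg _) ((abs_nonneg _).trans (hK x hx))
  one_mem' := ⟨1, fun x _ => by simp⟩
  add_mem' := by
    rintro f g ⟨K, hK⟩ ⟨K', hK'⟩
    refine ⟨K + K', fun x hx => ?_⟩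
    rw [Pi.add_apply]
    exact (abs_add_le _ _).trans (add_le_add (hK x hx) (hK' x hx))
  zero_mem' := ⟨0, fun x _ => by simp⟩
  neg_mem' := by
    rintro f ⟨K, hK⟩
    exact ⟨K, fun x hx => by rw [Pi.neg_apply, abs_neg]; exact hK x hx⟩

private abbrev RP : Type := Polynomial (Polynomial RB)

private def ev (x : ℝ) : RB →+* ℝ := (Pi.evalRingHom (fun _ : ℝ => ℝ) x).comp RB.subtype

private theorem ev_apply (x : ℝ) (g : RB) : ev x g = g.1 x := rfl

private def EV (x t e : ℝ) : RP →+* ℝ :=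
  Polynomial.eval₂RingHom (Polynomial.eval₂RingHom (ev x) e) t

private theorem EV_X (x t e : ℝ) : EV x t e Polynomial.X = t := by
  unfold EV
  rw [Polynomial.coe_eval₂RingHom, Polynomial.eval₂_X]

private theorem EV_CX (x t e : ℝ) : EV x t e (Polynomial.C Polynomial.X) = e := by
  unfold EV
  rw [Polynomial.coe_eval₂RingHom, Polynomial.eval₂_C, Polynomial.coe_eval₂RingHom,
    Polynomial.eval₂_X]

private theorem EV_CC (x t e : ℝ) (g : RB) :
    EV x t e (Polynomial.C (Polynomial.C g)) = g.1 x := by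
  unfold EV
  rw [Polynomial.coe_eval₂RingHom, Polynomial.eval₂_C, Polynomial.coe_eval₂RingHom,
    Polynomial.eval₂_C, ev_apply]

private theorem EV_add (x t e : ℝ) (p q : RP) : EV x t e (p + q) = EV x t e p + EV x t e q :=
  (EV x t e).map_add p q

private theorem EV_sub (x t e : ℝ) (p q : RP) : EV x t e (p - q) = EV x t e p - EV x t e q :=
  (EV x t e).map_sub p q

private theorem EV_neg (x t e : ℝ) (p : RP) : EV x t e (-p) = -EV x t e p :=
  (EV x t e).map_neg p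

private theorem EV_mul (x t e : ℝ) (p q : RP) : EV x t e (p * q) = EV x t e p * EV x t e q :=
  (EV x t e).map_mul p q

private theorem EV_pow (x t e : ℝ) (p : RP) (n : ℕ) : EV x t e (p ^ n) = EV x t e p ^ n :=
  (EV x t e).map_pow p n

private theorem EV_three (x t e : ℝ) : EV x t e 3 = 3 := map_ofNat (EV x t e) 3

private theorem expand (P : RP) : ∃ M0 : ℕ, ∀ M, M0 ≤ M → ∀ x t e : ℝ,
    EV x t e P = ∑ i ∈ range M, ∑ j ∈ range M, ((P.coeff i).coeff j).1 x * t ^ i * e ^ j := by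
  refine ⟨max (P.natDegree + 1) ((range (P.natDegree + 1)).sup
    (fun i => (P.coeff i).natDegree) + 1), fun M hM x t e => ?_⟩
  have h1 : P.natDegree < M := by
    have := (le_max_left _ _).trans hM
    omega
  have h2 : ∀ i, (P.coeff i).natDegree < M := by
    intro i
    by_cases hi : i < P.natDegree + 1
    · have h3 : (P.coeff i).natDegree ≤
          (range (P.natDegree + 1)).sup (fun i => (P.coeff i).natDegree) :=
        Finset.le_sup (f := fun i => (P.coeff i).natDegree) (mem_range.2 hi)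
      have := (le_max_right _ _).trans hM
      omega
    · rw [Polynomial.coeff_eq_zero_of_natDegree_lt (by omega), Polynomial.natDegree_zero]
      omega
  unfold EV
  rw [Polynomial.coe_eval₂RingHom, Polynomial.eval₂_eq_sum_range' _ h1]
  refine Finset.sum_congr rfl fun i _ => ?_
  rw [Polynomial.coe_eval₂RingHom, Polynomial.eval₂_eq_sum_range' _ (h2 i), Finset.sum_mul]
  refine Finset.sum_congr rfl fun j _ => ?_
  rw [ev_apply]
  ring

/-- constants -/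
private def kc : ℝ →+* RB :=
  RingHom.codRestrict (Pi.constRingHom ℝ ℝ) RB fun r => ⟨|r|, fun _ _ => le_rfl⟩

private def io : ℝ →+* RP := Polynomial.C.comp (Polynomial.C.comp kc)

private theorem EV_eval (x t e : ℝ) (P : Polynomial ℝ) (h : RP) :
    EV x t e (P.eval₂ io h) = P.eval (EV x t e h) := by
  rw [Polynomial.hom_eval₂]
  have h1 : (EV x t e).comp io = RingHom.id ℝ := Subsingleton.elim _ _
  rw [h1]
  exact Polynomial.eval₂_id

private def gx : RB := ⟨fun x => x, 1, fun _ hx => hx.1⟩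

private def gA : RB := ⟨fun x => (1 + x ^ 3)⁻¹, 4, fun x hx => by
  have h1 : (0 : ℝ) < 1 + x ^ 3 := lt_of_lt_of_le (by norm_num) hx.2
  rw [abs_of_pos (inv_pos.2 h1)]
  have := inv_anti₀ (by norm_num) hx.2
  norm_num at this
  linarith⟩

private theorem sg_bd {x : ℝ} (hx : x ∈ SS) :
    ((1 + x ^ 3) ^ ((1 : ℝ) / 3)) ^ 3 = 1 + x ^ 3 ∧ 1 / 2 ≤ (1 + x ^ 3) ^ ((1 : ℝ) / 3) ∧
      (1 + x ^ 3) ^ ((1 : ℝ) / 3) ≤ 2 := by
  have h1 : (0 : ℝ) < 1 + x ^ 3 := lt_of_lt_of_le (by norm_num) hx.2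
  have h2 : (1 + x ^ 3) ≤ 2 := by
    have h3 := abs_le.1 hx.1
    have h4 : x ^ 3 ≤ 1 := by
      have : 0 ≤ (1 - x) * (1 + x + x ^ 2) := mul_nonneg (by linarith) (by nlinarith)
      nlinarith
    linarith
  have hs : ((1 + x ^ 3) ^ ((1 : ℝ) / 3)) ^ 3 = 1 + x ^ 3 := by
    rw [← Real.rpow_natCast, ← Real.rpow_mul h1.le]
    norm_num
  have hp : 0 ≤ (1 + x ^ 3) ^ ((1 : ℝ) / 3) := Real.rpow_nonneg h1.le _
  refine ⟨hs, ?_, ?_⟩
  · by_contra hc
    push Not at hc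
    have h3 : ((1 + x ^ 3) ^ ((1 : ℝ) / 3)) ^ 3 < (1 / 2) ^ 3 := pow_lt_pow_left₀ hc hp (by norm_num)
    rw [hs] at h3
    have := hx.2
    norm_num at h3
    linarith
  · by_contra hc
    push Not at hc
    have h3 : (2 : ℝ) ^ 3 < ((1 + x ^ 3) ^ ((1 : ℝ) / 3)) ^ 3 :=
      pow_lt_pow_left₀ hc (by norm_num) (by norm_num)
    rw [hs] at h3
    norm_num at h3
    linarith

private def gs : RB := ⟨fun x => (1 + x ^ 3) ^ ((1 : ℝ) / 3), 2, fun x hx => by
  obtain ⟨-, h1, h2⟩ := sg_bd hx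
  rw [abs_of_nonneg (by linarith)]
  exact h2⟩

/-- the polynomial `h / A` -/
private def hp : RP := Polynomial.C (Polynomial.C gA) *
  (3 * Polynomial.C (Polynomial.C gx) ^ 2 * Polynomial.X +
    3 * Polynomial.C (Polynomial.C gx) * Polynomial.X ^ 2 + Polynomial.X ^ 3 -
    Polynomial.C Polynomial.X)

private theorem EV_hp (x t e : ℝ) : EV x t e hp =
    (1 + x ^ 3)⁻¹ * (3 * x ^ 2 * t + 3 * x * t ^ 2 + t ^ 3 - e) := by
  unfold hp
  rw [EV_mul, EV_sub, EV_add, EV_add, EV_mul, EV_mul, EV_mul, EV_mul, EV_pow, EV_pow, EV_pow,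
    EV_three, EV_CC, EV_CC, EV_X, EV_CX]
  rfl

private def QQ (P : Polynomial ℝ) (α β : ℕ) : RP :=
  (Polynomial.C (Polynomial.C gx) + Polynomial.X) ^ α *
    (-(Polynomial.C (Polynomial.C gs)) * P.eval₂ io hp) ^ β

private theorem EV_QQ (P : Polynomial ℝ) (α β : ℕ) (x t e : ℝ) : EV x t e (QQ P α β) =
    (x + t) ^ α * (-(1 + x ^ 3) ^ ((1 : ℝ) / 3) *
      P.eval ((1 + x ^ 3)⁻¹ * (3 * x ^ 2 * t + 3 * x * t ^ 2 + t ^ 3 - e))) ^ β := by
  unfold QQ
  rw [EV_mul, EV_pow, EV_pow, EV_add, EV_mul, EV_neg, EV_CC, EV_CC, EV_X, EV_eval, EV_hp]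
  rfl

private theorem pow_diff (K a b : ℝ) (hK : 1 ≤ K) (ha : |a| ≤ K) (hb : |b| ≤ K) (n : ℕ) :
    |a ^ n - b ^ n| ≤ n * K ^ n * |a - b| := by
  induction n with
  | zero => simp
  | succ n ih =>
    have h1 : a ^ (n + 1) - b ^ (n + 1) = a * (a ^ n - b ^ n) + (a - b) * b ^ n := by ring
    have hK0 : 0 ≤ K := by linarith
    have h2 : |b ^ n| ≤ K ^ n := by
      rw [abs_pow]
      exact pow_le_pow_left₀ (abs_nonneg _) hb n
    rw [h1]
    calc |a * (a ^ n - b ^ n) + (a - b) * b ^ n|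
        ≤ |a| * |a ^ n - b ^ n| + |a - b| * |b ^ n| := by
          rw [← abs_mul, ← abs_mul]
          exact abs_add_le _ _
      _ ≤ K * (n * K ^ n * |a - b|) + |a - b| * K ^ n :=
          add_le_add (mul_le_mul ha ih (abs_nonneg _) hK0)
            (mul_le_mul_of_nonneg_left h2 (abs_nonneg _))
      _ ≤ K * (n * K ^ n * |a - b|) + |a - b| * (K * K ^ n) := by
          have h3 : K ^ n ≤ K * K ^ n := by
            have := pow_nonneg hK0 n
            nlinarith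
          have := mul_le_mul_of_nonneg_left h3 (abs_nonneg (a - b))
          linarith
      _ = ((n + 1 : ℕ) : ℝ) * K ^ (n + 1) * |a - b| := by
          push_cast
          ring

/-- the analytic estimate -/
private theorem main_est (P : Polynomial ℝ) (K1 : ℝ) (hK1 : 1 ≤ K1) (L : ℕ)
    (hP : ∀ X b : ℝ, |X| ≤ 1 / 2 → 0 ≤ b → b ^ 3 = 1 + X → |b - P.eval X| ≤ K1 * |X| ^ L)
    (a T κ : ℝ) (ha : 0 < a) (ha1 : a ≤ 1) (hκ : 0 < κ) (hL : T ≤ a * L) (D : ℕ)
    (B x0 : ℝ) (hB : 1 ≤ B) (hx : x0 ∈ SS) (hbig : 4 * (7 + κ) * B ^ (-a) ≤ 1 / 2)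
    (t e y : ℝ) (ht : |t| ≤ B ^ (-a)) (he : |e| ≤ κ * B ^ (-3 : ℝ)) (hxt : |x0 + t| ≤ 1)
    (hy1 : -1 ≤ y) (hy0 : y ≤ 0) (heq : (x0 + t) ^ 3 + y ^ 3 + 1 = e)
    (α β : ℕ) (hβ : β ≤ D) (K2 : ℝ) (hK2 : K2 = 2 * (K1 * (4 * (7 + κ)) ^ L)) (hT : 0 < T) :
    |(x0 + t) ^ α * y ^ β - (x0 + t) ^ α * (-(1 + x0 ^ 3) ^ ((1 : ℝ) / 3) *
      P.eval ((1 + x0 ^ 3)⁻¹ * (3 * x0 ^ 2 * t + 3 * x0 * t ^ 2 + t ^ 3 - e))) ^ β| ≤
      D * (1 + K2) ^ D * K2 * B ^ (-T) := by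
  obtain ⟨s3, s1, s2⟩ := sg_bd hx
  set σ : ℝ := (1 + x0 ^ 3) ^ ((1 : ℝ) / 3) with hσ
  have hσ0 : 0 < σ := by linarith
  have hA : (0 : ℝ) < 1 + x0 ^ 3 := lt_of_lt_of_le (by norm_num) hx.2
  set h : ℝ := 3 * x0 ^ 2 * t + 3 * x0 * t ^ 2 + t ^ 3 - e with hh
  have hB0 : 0 < B := by linarith
  have hBa0 : 0 < B ^ (-a) := Real.rpow_pos_of_pos hB0 _
  have hBa1 : B ^ (-a) ≤ 1 := Real.rpow_le_one_of_one_le_of_nonpos hB (by linarith)
  have ht1 : |t| ≤ 1 := ht.trans hBa1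
  have he' : |e| ≤ κ * B ^ (-a) := by
    refine he.trans (mul_le_mul_of_nonneg_left ?_ hκ.le)
    exact Real.rpow_le_rpow_of_exponent_le hB (by linarith)
  have hhb : |h| ≤ (7 + κ) * B ^ (-a) := by
    have t0 := abs_nonneg t
    have x1 := hx.1
    have x0' := abs_nonneg x0
    have c1 : |3 * x0 ^ 2 * t| ≤ 3 * |t| := by
      rw [abs_mul, abs_mul, abs_pow, abs_of_pos (by norm_num : (0 : ℝ) < 3)]
      have : |x0| ^ 2 ≤ 1 := pow_le_one₀ x0' x1
      nlinarith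
    have c2 : |3 * x0 * t ^ 2| ≤ 3 * |t| := by
      rw [abs_mul, abs_mul, abs_pow, abs_of_pos (by norm_num : (0 : ℝ) < 3)]
      have : |t| ^ 2 ≤ |t| := by nlinarith
      have h5 : |x0| * |t| ^ 2 ≤ 1 * |t| := mul_le_mul x1 this (by positivity) (by norm_num)
      nlinarith
    have c3 : |t ^ 3| ≤ |t| := by
      rw [abs_pow]
      have : |t| ^ 2 ≤ 1 := pow_le_one₀ t0 ht1
      calc |t| ^ 3 = |t| ^ 2 * |t| := by ring
        _ ≤ 1 * |t| := mul_le_mul_of_nonneg_right this t0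
        _ = |t| := one_mul _
    calc |h| ≤ |3 * x0 ^ 2 * t| + |3 * x0 * t ^ 2| + |t ^ 3| + |e| := by
          rw [hh]
          refine (abs_sub _ _).trans ?_
          have := abs_add_three (3 * x0 ^ 2 * t) (3 * x0 * t ^ 2) (t ^ 3)
          linarith
      _ ≤ 7 * |t| + |e| := by linarith
      _ ≤ (7 + κ) * B ^ (-a) := by linarith
  have hX : |(1 + x0 ^ 3)⁻¹ * h| ≤ 4 * (7 + κ) * B ^ (-a) := by
    rw [abs_mul, abs_of_pos (inv_pos.2 hA)]
    have h5 : (1 + x0 ^ 3)⁻¹ ≤ 4 := by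
      have := inv_anti₀ (by norm_num) hx.2
      norm_num at this
      linarith
    calc (1 + x0 ^ 3)⁻¹ * |h| ≤ 4 * ((7 + κ) * B ^ (-a)) :=
          mul_le_mul h5 hhb (abs_nonneg _) (by norm_num)
      _ = _ := by ring
  have hb3 : (-y / σ) ^ 3 = 1 + (1 + x0 ^ 3)⁻¹ * h := by
    rw [div_pow, s3, div_eq_iff hA.ne']
    have : (1 + (1 + x0 ^ 3)⁻¹ * h) * (1 + x0 ^ 3) = (1 + x0 ^ 3) + h := by
      field_simp
    rw [this, hh]
    linear_combination -heq
  have hbd := hP ((1 + x0 ^ 3)⁻¹ * h) (-y / σ) (hX.trans hbig) (div_nonneg (by linarith) hσ0.le) hb3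
  have hbd2 : |-y / σ - P.eval ((1 + x0 ^ 3)⁻¹ * h)| ≤ K1 * (4 * (7 + κ)) ^ L * B ^ (-T) := by
    refine hbd.trans ?_
    have h5 : |(1 + x0 ^ 3)⁻¹ * h| ^ L ≤ (4 * (7 + κ)) ^ L * B ^ (-T) := by
      calc |(1 + x0 ^ 3)⁻¹ * h| ^ L ≤ (4 * (7 + κ) * B ^ (-a)) ^ L :=
            pow_le_pow_left₀ (abs_nonneg _) hX L
        _ = (4 * (7 + κ)) ^ L * B ^ (-a * L) := by
            rw [mul_pow, ← Real.rpow_natCast (B ^ (-a)), ← Real.rpow_mul hB0.le]
        _ ≤ (4 * (7 + κ)) ^ L * B ^ (-T) := by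
            refine mul_le_mul_of_nonneg_left ?_ (by positivity)
            exact Real.rpow_le_rpow_of_exponent_le hB (by linarith)
    rw [mul_assoc]
    exact mul_le_mul_of_nonneg_left h5 (by linarith)
  set y' : ℝ := -σ * P.eval ((1 + x0 ^ 3)⁻¹ * h) with hy'
  have hyy : |y - y'| ≤ K2 * B ^ (-T) := by
    have h5 : y - y' = -σ * (-y / σ - P.eval ((1 + x0 ^ 3)⁻¹ * h)) := by
      rw [hy', mul_sub]
      field_simp
      ring
    rw [h5, abs_mul, abs_neg, abs_of_pos hσ0, hK2]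
    calc σ * |-y / σ - P.eval ((1 + x0 ^ 3)⁻¹ * h)|
        ≤ 2 * (K1 * (4 * (7 + κ)) ^ L * B ^ (-T)) :=
          mul_le_mul s2 hbd2 (abs_nonneg _) (by norm_num)
      _ = _ := by ring
  have hBT0 : 0 < B ^ (-T) := Real.rpow_pos_of_pos hB0 _
  have hBT1 : B ^ (-T) ≤ 1 := Real.rpow_le_one_of_one_le_of_nonpos hB (by linarith)
  have hK20 : 0 ≤ K2 := by rw [hK2]; positivity
  have hy1' : |y| ≤ 1 := abs_le.2 ⟨by linarith, by linarith⟩
  have hyK : |y| ≤ 1 + K2 := by linarith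
  have hy'K : |y'| ≤ 1 + K2 := by
    have h5 : |y'| ≤ |y| + |y - y'| := by
      have := abs_sub_abs_le_abs_sub y' y
      rw [abs_sub_comm] at this
      linarith
    have h6 : K2 * B ^ (-T) ≤ K2 * 1 := mul_le_mul_of_nonneg_left hBT1 hK20
    linarith
  have hpd := pow_diff (1 + K2) y y' (by linarith) hyK hy'K β
  rw [← mul_sub, abs_mul, abs_pow]
  have h7 : |x0 + t| ^ α ≤ 1 := pow_le_one₀ (abs_nonneg _) hxt
  calc |x0 + t| ^ α * |y ^ β - y' ^ β| ≤ 1 * (β * (1 + K2) ^ β * |y - y'|) :=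
        mul_le_mul h7 hpd (abs_nonneg _) (by norm_num)
    _ ≤ 1 * (D * (1 + K2) ^ D * (K2 * B ^ (-T))) := by
        have h8 : (β : ℝ) ≤ D := by exact_mod_cast hβ
        have h9 : (1 + K2) ^ β ≤ (1 + K2) ^ D := pow_le_pow_right₀ (by linarith) hβ
        gcongr
    _ = D * (1 + K2) ^ D * K2 * B ^ (-T) := by ring

theorem hEXP (hCBR : StCBR) : StEXP := by
  classical
  intro D a T κ ha ha1 hT hκ
  obtain ⟨P, K1, hK1, hP⟩ := hCBR ⌈T / a⌉₊
  have hL : T ≤ a * (⌈T / a⌉₊ : ℕ) := by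
    have := Nat.le_ceil (T / a)
    rw [div_le_iff₀ ha] at this
    linarith
  choose M0 hM0 using fun (p : ℕ × ℕ) => expand (QQ P p.1 p.2)
  obtain ⟨M, hM⟩ : ∃ M : ℕ, ∀ α ≤ D, ∀ β ≤ D, M0 (α, β) ≤ M := by
    refine ⟨((range (D + 1)) ×ˢ (range (D + 1))).sup M0, fun α hα β hβ => ?_⟩
    exact Finset.le_sup (f := M0) (mem_product.2 ⟨mem_range.2 (by omega), mem_range.2 (by omega)⟩)
  choose bd hbd using fun (q : (ℕ × ℕ) × (ℕ × ℕ)) =>
    (((QQ P q.1.1 q.1.2).coeff q.2.1).coeff q.2.2).2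
  obtain ⟨K0, hK0⟩ : ∃ K0 : ℝ, ∀ α ≤ D, ∀ β ≤ D, ∀ i < M, ∀ j < M, bd ((α, β), (i, j)) ≤ K0 := by
    obtain ⟨K0, h0⟩ := ((((range (D + 1)) ×ˢ (range (D + 1))) ×ˢ
      ((range M) ×ˢ (range M))).image bd).exists_le
    refine ⟨K0, fun α hα β hβ i hi j hj => h0 _ (mem_image_of_mem _ ?_)⟩
    simp only [mem_product, mem_range]
    omega
  set K2 : ℝ := 2 * (K1 * (4 * (7 + κ)) ^ ⌈T / a⌉₊) with hK2
  set K4 : ℝ := (8 * (7 + κ)) ^ (T / a) with hK4
  refine ⟨max (max 1 K0) (max (D * (1 + K2) ^ D * K2) K4), M,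
    (le_max_left _ _).trans (le_max_left _ _), ?_⟩
  intro B x0 hB hx1 hx2
  have hx : x0 ∈ SS := ⟨hx1, hx2⟩
  have hB0 : 0 < B := by linarith
  have hBT0 : 0 < B ^ (-T) := Real.rpow_pos_of_pos hB0 _
  by_cases hbig : 4 * (7 + κ) * B ^ (-a) ≤ 1 / 2
  · refine ⟨fun α β i j => if α ≤ D ∧ β ≤ D ∧ i < M ∧ j < M then
      (((QQ P α β).coeff i).coeff j).1 x0 else 0, ?_, ?_⟩
    · intro α β i j
      dsimp only
      split_ifs with h
      · refine (hbd ((α, β), (i, j)) x0 hx).trans ((hK0 α h.1 β h.2.1 i h.2.2.1 j h.2.2.2).trans ?_)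
        exact (le_max_right _ _).trans (le_max_left _ _)
      · rw [abs_zero]
        exact zero_le_one.trans ((le_max_left _ _).trans (le_max_left _ _))
    · intro t e y ht he hxt hy1 hy0 heq α hα β hβ
      have e1 : ∑ i ∈ range M, ∑ j ∈ range M, (if α ≤ D ∧ β ≤ D ∧ i < M ∧ j < M then
          (((QQ P α β).coeff i).coeff j).1 x0 else 0) * t ^ i * e ^ j =
          ∑ i ∈ range M, ∑ j ∈ range M, (((QQ P α β).coeff i).coeff j).1 x0 * t ^ i * e ^ j := by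
        refine Finset.sum_congr rfl fun i hi => Finset.sum_congr rfl fun j hj => ?_
        rw [if_pos ⟨hα, hβ, mem_range.1 hi, mem_range.1 hj⟩]
      rw [e1, ← hM0 (α, β) M (hM α hα β hβ) x0 t e, EV_QQ]
      refine (main_est P K1 hK1 _ hP a T κ ha ha1 hκ hL D B x0 hB hx hbig t e y ht he hxt hy1 hy0
        heq α β hβ K2 hK2 hT).trans ?_
      exact mul_le_mul_of_nonneg_right ((le_max_left _ _).trans (le_max_right _ _)) hBT0.le
  · refine ⟨fun _ _ _ _ => 0, ?_, ?_⟩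
    · intro α β i j
      rw [abs_zero]
      exact zero_le_one.trans ((le_max_left _ _).trans (le_max_left _ _))
    · intro t e y ht he hxt hy1 hy0 heq α hα β hβ
      have e1 : ∑ i ∈ range M, ∑ j ∈ range M, (0 : ℝ) * t ^ i * e ^ j = 0 := by
        refine Finset.sum_eq_zero fun i _ => Finset.sum_eq_zero fun j _ => ?_
        ring
      rw [e1, sub_zero, abs_mul, abs_pow, abs_pow]
      have c1 : |x0 + t| ^ α ≤ 1 := pow_le_one₀ (abs_nonneg _) hxt
      have c2 : |y| ^ β ≤ 1 := pow_le_one₀ (abs_nonneg _) (abs_le.2 ⟨by linarith, by linarith⟩)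
      have c3 : |x0 + t| ^ α * |y| ^ β ≤ 1 := mul_le_one₀ c1 (by positivity) c2
      refine c3.trans ?_
      push Not at hbig
      have c4 : B ^ a ≤ 8 * (7 + κ) := by
        rw [Real.rpow_neg hB0.le, ← div_eq_mul_inv, lt_div_iff₀ (Real.rpow_pos_of_pos hB0 _)] at hbig
        linarith
      have c5 : B ^ T ≤ K4 := by
        have : B ^ T = (B ^ a) ^ (T / a) := by
          rw [← Real.rpow_mul hB0.le, mul_div_cancel₀ _ ha.ne']
        rw [this, hK4]
        exact Real.rpow_le_rpow (Real.rpow_nonneg hB0.le _) c4 (by positivity)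
      calc (1 : ℝ) = B ^ T * B ^ (-T) := by
            rw [← Real.rpow_add hB0, add_neg_cancel, Real.rpow_zero]
        _ ≤ K4 * B ^ (-T) := mul_le_mul_of_nonneg_right c5 hBT0.le
        _ ≤ _ := mul_le_mul_of_nonneg_right ((le_max_right _ _).trans (le_max_right _ _)) hBT0.le

end Pool.Agent.Helper10.PV
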